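import Pool.Agent.GBS.StmtsC
import Pool.Agent.Helper41_GBS.FIN

/-!
# GBS, row FN2: the final theorem with the trace-free Ricci tensor (MP_33f2b9_gt, helper49)
-/

noncomputable section

open scoped ContDiff Topology RealInnerProductSpace
open Set MeasureTheory Matrix

namespace Pool.Agent.GBS.H49

open Pool.Agent.RF Pool.Agent.MVS Pool.Agent.GBS
open Pool.Agent.SecondKind Pool.Agent.MinVolSphere

/-- a pointwise inequality between densities homogeneous of degree `-5` -/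
theorem hom_le {f h : E5 → ℝ}
    (hf : ∀ c : ℝ, 0 < c → ∀ x ∈ Om (Fin 5), f (c • x) = (c ^ 5)⁻¹ * f x)
    (hh : ∀ c : ℝ, 0 < c → ∀ x ∈ Om (Fin 5), h (c • x) = (c ^ 5)⁻¹ * h x)
    (hle : ∀ u : Fin 5 → ℝ, OnSphere u → f (vc u) ≤ h (vc u)) (x : E5) (hx : x ∈ Om (Fin 5)) :
    f x ≤ h x := by
  have hx0 : x ≠ 0 := hx
  have hn : 0 < ‖x‖ := norm_pos_iff.mpr hx0
  obtain ⟨u, hu⟩ : ∃ u : E5, u = ‖x‖⁻¹ • x := ⟨_, rfl⟩
  have hun : ‖u‖ = 1 := by
    rw [hu, norm_smul, norm_inv, norm_norm, inv_mul_cancel₀ hn.ne']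
  have hxu : x = ‖x‖ • u := by
    rw [hu, smul_smul, mul_inv_cancel₀ hn.ne', one_smul]
  have huO : u ∈ Om (Fin 5) := by
    show u ≠ 0
    intro h0
    rw [h0, norm_zero] at hun
    exact zero_ne_one hun
  have hS : OnSphere (fun i => u i) := by
    show ∑ i, u i ^ 2 = 1
    rw [← EuclideanSpace.real_norm_sq_eq, hun, one_pow]
  have hv : vc (fun i => u i) = u := by
    ext i
    rfl
  have h1 := hle _ hS
  rw [hv] at h1
  rw [hxu, hf _ hn u huO, hh _ hn u huO]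
  exact mul_le_mul_of_nonneg_left h1 (by positivity)

theorem fn2 (mn3 : Mn3Stmt) (scb : ScbStmt) (pin : PinStmt) (pex : PexStmt) (rin : RinStmt)
    (rex : RexStmt) (rdo : RdoStmt) (rdz : RdzStmt) (fin : FinStmt) (cnt : CntStmt)
    (rct : RctStmt) : Fn2Stmt := by
  have br1 : Br1Statement := MVS.H94.br1 MVS.H60.par
  have br3 : Br3Statement := MVS.H23.br3
  obtain ⟨r1, r2, -, r4⟩ : IsMetric MVS.H38.rg ∧ AbsSecLeOne MVS.H38.rg ∧
    (∀ a b, Invariant a b MVS.H38.rg) ∧ vol MVS.H38.rg = 8 * Real.pi ^ 2 / 3 := MVS.H38.rnd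
  obtain ⟨-, -, q3⟩ := rdo
  obtain ⟨-, f2, f3, f4, f5⟩ := fin
  have hex : ∀ g : Form 4, IsMetric g → ∃ G : E5 → Bil E5, Cyl2 g G ∧
      ∫ x in slab (Fin 5), sd (G x) = vol g := by
    intro g hg
    obtain ⟨G, hG, ht⟩ := br1 g hg
    exact ⟨G, ⟨hG, ht⟩, br3 g G hg hG ht⟩
  have A : ∀ g : Form 4, IsMetric g → AbsSecLeOne g →
      (∃ P, IsPont g P ∧ ContinuousOn P {x | OnSphere x}) ∧
      (∃ Q, IsRicz g Q ∧ ContinuousOn Q {x | OnSphere x}) ∧
      ∀ P Q, IsPont g P → IsRicz g Q →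
        8 * Real.pi ^ 2 / 3 + (1 / 6) * integ g Q ≤ vol g + (1 / 12) * integ g P := by
    intro g hg ha
    obtain ⟨G, hc, hv⟩ := hex g hg
    refine ⟨(pex g G hc).1, (rex g G hc).1, fun P Q hPg hQg => ?_⟩
    obtain ⟨i1, i2⟩ := pin g G hc P hPg
    obtain ⟨j1, j2⟩ := rin g G hc Q hQg
    obtain ⟨s1, s2, -⟩ := scb g G hc
    have h := mn3 G hc.1 i1 j1 fun x hx F hF u v =>
      ⟨s2 (-1) (H41.secGe_of_abs ha) x hx F hF u v, s1 (H41.secLe_of_abs ha) x hx F hF u v⟩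
    rw [hv, i2, j2] at h
    linarith
  have B : ∀ (g : Form 4) (P Q : (Fin 5 → ℝ) → ℝ), IsMetric g → IsPont g P → IsRicz g Q →
      (∀ x, OnSphere x → P x ≤ 2 * Q x) → integ g P ≤ 2 * integ g Q := by
    intro g P Q hg hPg hQg hPQ
    obtain ⟨G, hc, hv⟩ := hex g hg
    obtain ⟨i1, i2⟩ := pin g G hc P hPg
    obtain ⟨j1, j2⟩ := rin g G hc Q hQg
    obtain ⟨-, -, -, hpn⟩ := cnt G hc.1
    obtain ⟨-, hrz⟩ := rct G hc.1
    have hpt : ∀ x ∈ slab (Fin 5), |pnt G x| ≤ 16 * rz G x := by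
      intro x hx
      have hxO : x ∈ Om (Fin 5) := by
        show x ≠ 0
        intro h0
        have h1 : 1 < ‖x‖ := hx.1
        rw [h0, norm_zero] at h1
        linarith
      refine hom_le (f := fun x => |pnt G x|) (h := fun x => 16 * rz G x) ?_ ?_ ?_ x hxO
      · intro c hc0 y hy
        have hpos : 0 < (c ^ 5)⁻¹ := by positivity
        show |pnt G (c • y)| = (c ^ 5)⁻¹ * |pnt G y|
        rw [hpn c hc0 y hy, abs_mul, abs_of_pos hpos]
      · intro c hc0 y hy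
        show 16 * rz G (c • y) = (c ^ 5)⁻¹ * (16 * rz G y)
        rw [hrz c hc0 y hy]
        ring
      · intro u hu
        show |pnt G (vc u)| ≤ 16 * rz G (vc u)
        rw [(pex g G hc).2 P hPg u hu, (rex g G hc).2 Q hQg u hu]
        have hs : 0 ≤ sd (G (vc u)) := Real.sqrt_nonneg _
        have := mul_le_mul_of_nonneg_left (hPQ u hu) hs
        linarith
    have hmeas : MeasurableSet (slab (Fin 5)) := by
      apply IsOpen.measurableSet
      exact (isOpen_lt continuous_const continuous_norm).inter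
        (isOpen_lt continuous_norm continuous_const)
    have h1 : ∫ x in slab (Fin 5), |pnt G x| ≤ ∫ x in slab (Fin 5), 16 * rz G x :=
      setIntegral_mono_on i1 (j1.const_mul 16) hmeas hpt
    rw [integral_const_mul, i2, j2] at h1
    linarith
  refine ⟨A, ?_, f2, f3, f4, f5⟩
  have hlow : ∀ V ∈ {V : ℝ | ∃ (g : Form 4) (P Q : (Fin 5 → ℝ) → ℝ), IsMetric g ∧ AbsSecLeOne g ∧
      IsPont g P ∧ IsRicz g Q ∧ (∀ x, OnSphere x → P x ≤ 2 * Q x) ∧ vol g = V},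
      8 * Real.pi ^ 2 / 3 ≤ V := by
    rintro V ⟨g, P, Q, hg, ha, hP, hQ, hPQ, rfl⟩
    have h1 := (A g hg ha).2.2 P Q hP hQ
    have h2 := B g P Q hg hP hQ hPQ
    linarith
  have hmem : 8 * Real.pi ^ 2 / 3 ∈ {V : ℝ | ∃ (g : Form 4) (P Q : (Fin 5 → ℝ) → ℝ), IsMetric g ∧
      AbsSecLeOne g ∧ IsPont g P ∧ IsRicz g Q ∧ (∀ x, OnSphere x → P x ≤ 2 * Q x) ∧
      vol g = V} :=
    ⟨MVS.H38.rg, fun _ => 0, fun _ => 0, r1, r2, q3, rdz, fun x _ => by norm_num, r4⟩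
  exact le_antisymm (csInf_le ⟨_, hlow⟩ hmem) (le_csInf ⟨_, hmem⟩ hlow)

end Pool.Agent.GBS.H49
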