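import Pool.Agent.GBS.Stmts

/-!
# GBS row SDD : derivative of the square root of the determinant (helper49)
-/

noncomputable section

open scoped ContDiff Topology RealInnerProductSpace
open Set MeasureTheory Matrix

namespace Pool.Agent.GBS.H49

open Pool.Agent.RF Pool.Agent.MVS

/-- Jacobi's formula -/
theorem jacobi (M : ℝ → M5) (M' : M5) (t : ℝ) (h : ∀ a b, HasDerivAt (fun s => M s a b) (M' a b) t) :
    HasDerivAt (fun s => (M s).det) ((M t).adjugate * M').trace t := by
  have h1 : (fun s => (M s).det) = fun s => ∑ σ : Equiv.Perm (Fin 5),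
      ((Equiv.Perm.sign σ : ℤ) : ℝ) * ∏ i, M s (σ i) i := by
    funext s
    exact Matrix.det_apply' _
  have h2 : HasDerivAt (fun s => ∑ σ : Equiv.Perm (Fin 5),
      ((Equiv.Perm.sign σ : ℤ) : ℝ) * ∏ i, M s (σ i) i)
      (∑ σ : Equiv.Perm (Fin 5), ((Equiv.Perm.sign σ : ℤ) : ℝ) *
        ∑ i, (∏ j ∈ Finset.univ.erase i, M t (σ j) j) • M' (σ i) i) t := by
    refine HasDerivAt.fun_sum fun σ _ => ?_
    exact (HasDerivAt.fun_finsetProd fun i _ => h (σ i) i).const_mul _
  rw [h1]
  have h3 : (∑ σ : Equiv.Perm (Fin 5), ((Equiv.Perm.sign σ : ℤ) : ℝ) *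
        ∑ i, (∏ j ∈ Finset.univ.erase i, M t (σ j) j) • M' (σ i) i) =
      ((M t).adjugate * M').trace := by
    have h4 : ((M t).adjugate * M').trace = ∑ i, ((M t).updateCol i (fun k => M' k i)).det := by
      unfold Matrix.trace
      refine Finset.sum_congr rfl fun i _ => ?_
      rw [← Matrix.cramer_apply, Matrix.cramer_eq_adjugate_mulVec]
      rfl
    rw [h4]
    simp_rw [Finset.mul_sum]
    rw [Finset.sum_comm]
    refine Finset.sum_congr rfl fun i _ => ?_
    rw [Matrix.det_apply']
    refine Finset.sum_congr rfl fun σ _ => ?_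
    congr 1
    rw [← Finset.mul_prod_erase Finset.univ _ (Finset.mem_univ i), smul_eq_mul, mul_comm]
    congr 1
    · rw [Matrix.updateCol_self]
    · refine Finset.prod_congr rfl fun j hj => ?_
      rw [Matrix.updateCol_ne (Finset.ne_of_mem_erase hj)]
  rw [← h3]
  exact h2

theorem det_smooth {F : Z → M5} (hF : SmM F) : ContDiffOn ℝ ∞ (fun z => (F z).det) UZ := by
  have h1 : (fun z => (F z).det) = fun z => ∑ σ : Equiv.Perm (Fin 5),
      ((Equiv.Perm.sign σ : ℤ) : ℝ) * ∏ i, F z (σ i) i := by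
    funext s
    exact Matrix.det_apply' _
  rw [h1]
  refine ContDiffOn.sum fun σ _ => contDiffOn_const.mul ?_
  exact contDiffOn_prod fun i _ => hF (σ i) i

theorem UZ_open : IsOpen UZ := isOpen_univ.prod isOpen_compl_singleton

theorem sdd : SddStatement := by
  intro g hg hdet
  have hd := det_smooth hg
  have hne : ∀ z ∈ UZ, (g z).det ≠ 0 := fun z hz => (hdet z hz).ne'
  have hsq : ContDiffOn ℝ ∞ (fun z => Real.sqrt (g z).det) UZ := hd.sqrt hne
  refine ⟨?_, hsq, ?_⟩
  · intro a b
    have h1 : (fun z => (g z)⁻¹ a b) = fun z => ((g z).det)⁻¹ *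
        ((g z).updateRow b (Pi.single a 1)).det := by
      funext z
      rw [Matrix.inv_def, Matrix.smul_apply, Matrix.adjugate_apply, Ring.inverse_eq_inv', smul_eq_mul]
    rw [h1]
    refine (hd.inv hne).mul (det_smooth fun c d => ?_)
    by_cases hcb : c = b
    · subst hcb
      simp only [Matrix.updateRow_self]
      exact contDiffOn_const
    · simp only [Matrix.updateRow_ne hcb]
      exact hg c d
  · intro z hz v
    have hdiff : ∀ f : Z → ℝ, ContDiffOn ℝ ∞ f UZ → HasDerivAt (fun s : ℝ => f (z + s • v))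
        (dr v f z) 0 := by
      intro f hf
      have h1 : DifferentiableAt ℝ f z := (hf.differentiableOn (by norm_num)).differentiableAt
        (UZ_open.mem_nhds hz)
      have h2 : HasDerivAt (fun s : ℝ => z + s • v) v 0 := by
        have := (hasDerivAt_id (0 : ℝ)).smul_const v
        simpa using this.const_add z
      have h3 : HasFDerivAt f (fderiv ℝ f z) (z + (0 : ℝ) • v) := by
        rw [zero_smul, add_zero]
        exact h1.hasFDerivAt
      exact h3.comp_hasDerivAt (0 : ℝ) h2
    have h1 := hdiff _ hsq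
    have h2 : HasDerivAt (fun s : ℝ => (g (z + s • v)).det)
        ((g (z + (0 : ℝ) • v)).adjugate * dM v g z).trace 0 :=
      jacobi (fun s => g (z + s • v)) (dM v g z) 0 fun a b => hdiff _ (hg a b)
    rw [zero_smul, add_zero] at h2
    have h0 : (g (z + (0 : ℝ) • v)).det ≠ 0 := by
      rw [zero_smul, add_zero]
      exact hne z hz
    have h3 := h2.sqrt h0
    rw [zero_smul, add_zero] at h3
    have h4 := h1.unique h3
    rw [h4]
    have h5 : ((g z)⁻¹ * dM v g z).trace = ((g z).det)⁻¹ * ((g z).adjugate * dM v g z).trace := by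
      rw [Matrix.inv_def, Ring.inverse_eq_inv', Matrix.smul_mul, Matrix.trace_smul, smul_eq_mul]
    rw [h5]
    have h6 : Real.sqrt (g z).det * Real.sqrt (g z).det = (g z).det :=
      Real.mul_self_sqrt (hdet z hz).le
    have h7 : Real.sqrt (g z).det ≠ 0 := (Real.sqrt_pos.mpr (hdet z hz)).ne'
    have h8 : ((g z).det)⁻¹ = (Real.sqrt (g z).det)⁻¹ * (Real.sqrt (g z).det)⁻¹ := by
      rw [← mul_inv, h6]
    rw [h8]
    field_simp

end Pool.Agent.GBS.H49
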