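import Pool.Agent.Helper49_GBS.TRT
import Pool.Agent.Helper91_GBS.EPI
import Pool.Agent.Helper44_GBS.EPS
import Pool.Agent.Helper27_GBS.CAL
import Pool.Agent.Helper16_GBS.SMO
import Pool.Agent.Helper92_GBS.CMP
import Pool.Agent.Helper29_GBS.FSM
import Pool.Agent.Helper60_GBS.FAM
import Pool.Agent.Helper77_GBS.CNV
import Pool.Agent.Helper31_GBS.DIV
import Pool.Agent.Helper10_GBS.CGI
import Pool.Agent.Helper77_GBS.EPD
import Pool.Agent.Helper27_GBS.EMX
import Pool.Agent.Helper92_GBS.EPT
import Pool.Agent.Helper60_GBS.ACT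
import Pool.Agent.Helper65_GBS.FRM
import Pool.Agent.Helper41_GBS.KHF
import Pool.Agent.Helper10_GBS.FRA
import Pool.Agent.Helper41_GBS.PFR
import Pool.Agent.Helper11_GBS.CNT
import Pool.Agent.Helper70_GBS.RDK
import Pool.Agent.Helper32_GBS.RDE
import Pool.Agent.Helper31_GBS.PLR
import Pool.Agent.Helper17_GBS.CGB
import Pool.Agent.Helper94_GBS.SG1
import Pool.Agent.Helper38_GBS.BFO
import Pool.Agent.Helper43_GBS.BOF
import Pool.Agent.Helper80_GBS.SCB
import Pool.Agent.Helper95_GBS.PEX
import Pool.Agent.Helper69_GBS.PIN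
import Pool.Agent.Helper32_GBS.RDO
import Pool.Agent.Helper85_GBS.MN1
import Pool.Agent.Helper41_GBS.MN2
import Pool.Agent.Helper41_GBS.FIN
import Pool.Agent.Helper20_GBS.TIM
import Pool.Agent.Helper49_GBS.SDD
import Pool.Agent.Helper44_GBS.EVA
import Pool.Agent.Helper77_GBS.RNF
import Pool.Agent.Helper21_GBS.RCT
import Pool.Agent.Helper41_GBS.REX
import Pool.Agent.Helper41_GBS.RIN
import Pool.Agent.Helper44_GBS.RDZ
import Pool.Agent.Helper91_GBS.MN3
import Pool.Agent.Helper49_GBS.FN2

/-!
# GBS: all rows together (MP_33f2b9_gt)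
-/

noncomputable section

namespace Pool.Agent.GBS.H49

theorem all_cal : CalStatement := H27.cal
theorem all_epi : EpiStatement := H91.epi
theorem all_eps : EpsStatement := H44.eps
theorem all_fam : FamStatement := H60.fam H27.cal sdd H92.cmp H29.fsm

/-- the Gauss-Bonnet integral does not depend on the metric -/
theorem all_cgi : CgiStatement :=
  H10.cgi (trd all_epi all_eps all_cal) (trt all_epi all_eps all_cal) (H16.smo all_eps all_cal)
    all_fam H77.cnv H31.div_ H20.tim all_cal

theorem all_ept : EptStmt := H92.ept H77.epd H27.emx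
theorem all_khf : KhfStmt := H41.khf H27.emx
theorem all_fra : FraStmt := H10.fra all_khf all_ept H44.eva H27.emx
theorem all_pfr : PfrStmt := H41.pfr all_khf all_ept H44.eva H27.emx
theorem all_rde : RdeStmt := H32.rde all_fra H65.frm H70.rdk
theorem all_cgb : CgbStmt := H17.cgb all_cgi all_rde
theorem all_bof : BofStmt := H43.bof H38.bfo
theorem all_scb : ScbStmt := H80.scb all_bof
theorem all_pex : PexStmt := H95.pex H38.bfo all_bof all_pfr H11.cnt H65.frm
theorem all_pin : PinStmt := H69.pin H31.plr H11.cnt all_pex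
theorem all_rdo : RdoStmt := H32.rdo H38.bfo H70.rdk
theorem all_mn1 : Mn1Stmt := H85.mn1 all_cgb H65.frm all_fra all_pfr H60.act H11.cnt
theorem all_mn2 : Mn2Stmt := H41.mn2 all_cgb H65.frm all_fra H60.act H11.cnt H94.sg1

/-- the final theorem, first version -/
theorem all_fin : FinStmt := H41.fin all_mn1 all_mn2 all_scb all_pin all_pex all_rdo

theorem all_rnf : RnfStmt := H77R.rnf all_khf H27.emx all_fra H60.act
theorem all_rct : RctStmt := H21.rct
theorem all_rex : RexStmt := H41.rex H38.bfo all_bof all_rnf all_rct H11.cnt H65.frm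
theorem all_rin : RinStmt := H41.rin H31.plr all_rct all_rex
theorem all_rdz : RdzStmt := H44.rdz H38.bfo H70.rdk
theorem all_mn3 : Mn3Stmt := H91.mn3 all_cgb H65.frm all_fra all_pfr H60.act H11.cnt all_rnf

/-- the final theorem with the trace-free Ricci tensor -/
theorem all_fn2 : Fn2Stmt :=
  fn2 all_mn3 all_scb all_pin all_pex all_rin all_rex all_rdo all_rdz all_fin H11.cnt all_rct

end Pool.Agent.GBS.H49
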