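import Pool.Agent.GBS.Stmts

/-!
# GBS row TRD: the divergence of the transgression field (helper49, MP_33f2b9_gt)
-/

noncomputable section

open scoped ContDiff Topology RealInnerProductSpace
open Set MeasureTheory Matrix

namespace Pool.Agent.GBS.H49

open Pool.Agent.RF Pool.Agent.MVS

theorem cf_vx (i : Fin 5) : cf (vx i).2 = Pi.single i 1 := by
  funext j
  simp only [cf, vx, eb]
  rw [PiLp.single_apply, Pi.single_apply]

/-- covariant derivative of a matrix with two upper indices, in terms of the lowered one -/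
theorem nab (Γ R h dR dh : M5) (hdh : dh = - (Γ * h) - h * Γᵀ) :
    dR * h + R * dh + (Γ * (R * h) + (R * h) * Γᵀ) = (dR + (Γ * R - R * Γ)) * h := by
  rw [hdh]
  noncomm_ring

theorem dM_congr {F G : Z → M5} (ho : IsOpen UZ) (hFG : ∀ z ∈ UZ, F z = G z) {z : Z} (hz : z ∈ UZ)
    (v : Z) : dM v F z = dM v G z := by
  ext a b
  simp only [dM, Matrix.of_apply, dr]
  have : (fun y => F y a b) =ᶠ[𝓝 z] (fun y => G y a b) := by
    filter_upwards [ho.mem_nhds hz] with y hy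
    rw [hFG y hy]
  rw [this.fderiv_eq]

theorem dM_const (A : M5) (z v : Z) : dM v (fun _ => A) z = 0 := by
  ext a b
  simp [dM, dr]

/-- the derivative of the inverse matrix -/
theorem dM_inv (ho : IsOpen UZ)
    (hmul : ∀ F G : Z → M5, SmM F → SmM G → ∀ z ∈ UZ, ∀ v,
      dM v (fun z => F z * G z) z = dM v F z * G z + F z * dM v G z)
    {g h : Z → M5} {Γ : Fin 5 → Z → M5} {w : Z → ℝ} (T : TData g h Γ w) {z : Z} (hz : z ∈ UZ)
    (i : Fin 5) : dM (vx i) h z = - (Γ i z * h z) - h z * (Γ i z)ᵀ := by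
  have h1 : dM (vx i) (fun z => g z * h z) z = 0 := by
    rw [dM_congr ho (G := fun _ => 1) T.inv hz, dM_const]
  rw [hmul g h T.sg T.sh z hz, T.comp z hz i] at h1
  have hgh := T.inv z hz
  have hhg : h z * g z = 1 := mul_eq_one_comm.mp hgh
  have h2 : h z * ((g z * Γ i z + (Γ i z)ᵀ * g z) * h z + g z * dM (vx i) h z) = 0 := by
    rw [h1, mul_zero]
  have h3 : h z * ((g z * Γ i z + (Γ i z)ᵀ * g z) * h z + g z * dM (vx i) h z) =
      (h z * g z) * (Γ i z * h z) + h z * (Γ i z)ᵀ * (g z * h z) + (h z * g z) * dM (vx i) h z := by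
    noncomm_ring
  rw [h3, hhg, hgh, one_mul, one_mul, mul_one] at h2
  have h4 : dM (vx i) h z = - (Γ i z * h z + h z * (Γ i z)ᵀ) := by
    rw [eq_neg_iff_add_eq_zero, add_comm]
    exact h2
  rw [h4]
  abel

theorem dw_eq {g h : Z → M5} {Γ : Fin 5 → Z → M5} {w : Z → ℝ} (T : TData g h Γ w) {z : Z}
    (hz : z ∈ UZ) (i : Fin 5) : dr (vx i) w z = w z * (Γ i z).trace := by
  rw [T.dw z hz, T.comp z hz i]
  have hgh := T.inv z hz
  have hhg : h z * g z = 1 := mul_eq_one_comm.mp hgh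
  have e1 : (h z * (g z * Γ i z + (Γ i z)ᵀ * g z)).trace = (Γ i z).trace + (Γ i z).trace := by
    rw [mul_add, Matrix.trace_add, ← mul_assoc, hhg, one_mul, ← mul_assoc,
      Matrix.trace_mul_cycle, hgh, one_mul, Matrix.trace_transpose]
  rw [e1]
  ring

theorem bianchi (a b c : Fin 5) (G1 : Fin 5 → Fin 5 → M5) (G2 : Fin 5 → Fin 5 → Fin 5 → M5)
    (hs : ∀ i k l, G2 i k l = G2 k i l) (Γ : Fin 5 → M5) (R : Fin 5 → Fin 5 → M5)
    (hR : ∀ i j, R i j = G1 i j - G1 j i + (Γ i * Γ j - Γ j * Γ i))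
    (dR : Fin 5 → Fin 5 → Fin 5 → M5)
    (hdR : ∀ i k l, dR i k l = G2 i k l - G2 i l k
      + ((G1 i k * Γ l + Γ k * G1 i l) - (G1 i l * Γ k + Γ l * G1 i k))) :
    (dR a b c + (Γ a * R b c - R b c * Γ a)) + (dR b c a + (Γ b * R c a - R c a * Γ b))
      + (dR c a b + (Γ c * R a b - R a b * Γ c)) = 0 := by
  rw [hdR, hdR, hdR, hR, hR, hR, hs b a c, hs c a b, hs c b a]
  noncomm_ring

/-- the main row -/
theorem trd (epi : EpiStatement) (eS : EpsStatement) (cal : CalStatement) : TrdStatement := by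
  intro g h Γ w T z hz
  obtain ⟨ho, drS, dMS, ops, drC, dMC, dMR, drMul, drSum, eSm, eD, pfR, -⟩ := cal
  obtain ⟨-, -, -, -, -, e_self, -, pf_addu, pf_smulu, pf_adds, pf_smuls, pf_comm, pf_tr, ctr_add,
    ctr_smul, ctr_swap, ctr_cyc, -⟩ := eS
  -- smoothness
  have sΓt : ∀ j, SmM (dM vt (Γ j)) := fun j => dMS _ (T.sΓ j) _
  have sΓx : ∀ i j, SmM (dM (vx i) (Γ j)) := fun i j => dMS _ (T.sΓ j) _
  have sPr : ∀ i j, SmM (fun z => Γ i z * Γ j z) := fun i j => (ops _ _ (T.sΓ i) (T.sΓ j)).2.2.1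
  have sPP : ∀ i j, SmM (fun z => Γ i z * Γ j z - Γ j z * Γ i z) := fun i j =>
    (ops _ _ (sPr i j) (sPr j i)).2.1
  have sDD : ∀ i j, SmM (fun z => dM (vx i) (Γ j) z - dM (vx j) (Γ i) z) := fun i j =>
    (ops _ _ (sΓx i j) (sΓx j i)).2.1
  have sR : ∀ i j, SmM (RZ Γ i j) := fun i j => (ops _ _ (sDD i j) (sPP i j)).1
  have sS : ∀ i j, SmM (SZ Γ h i j) := fun i j => (ops _ _ (sR i j) T.sh).2.2.1
  have sC : ∀ j, SmM (fun z => dM vt (Γ j) z * h z) := fun j => (ops _ _ (sΓt j) T.sh).2.2.1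
  -- the derivative of the curvature
  have hdR : ∀ v i j, dM v (RZ Γ i j) z = dM v (dM (vx i) (Γ j)) z - dM v (dM (vx j) (Γ i)) z
      + ((dM v (Γ i) z * Γ j z + Γ i z * dM v (Γ j) z)
        - (dM v (Γ j) z * Γ i z + Γ j z * dM v (Γ i) z)) := by
    intro v i j
    have a1 := (dMR _ _ (sDD i j) (sPP i j) z hz v).1
    have a2 := (dMR _ _ (sΓx i j) (sΓx j i) z hz v).2.1
    have a3 := (dMR _ _ (sPr i j) (sPr j i) z hz v).2.1
    have a4 := (dMR _ _ (T.sΓ i) (T.sΓ j) z hz v).2.2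
    have a5 := (dMR _ _ (T.sΓ j) (T.sΓ i) z hz v).2.2
    calc dM v (RZ Γ i j) z = dM v (fun z => (dM (vx i) (Γ j) z - dM (vx j) (Γ i) z)
          + (Γ i z * Γ j z - Γ j z * Γ i z)) z := rfl
      _ = _ := by rw [a1, a2, a3, a4, a5]
  -- abbreviations
  set X : Fin 5 → ℝ := cf z.2 with hX
  have hdh := dM_inv ho (fun F G hF hG z hz v => (dMR F G hF hG z hz v).2.2) T hz
  have hdS : ∀ i k l, dM (vx i) (SZ Γ h k l) z + (Γ i z * SZ Γ h k l z + SZ Γ h k l z * (Γ i z)ᵀ) =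
      (dM (vx i) (RZ Γ k l) z + (Γ i z * RZ Γ k l z - RZ Γ k l z * Γ i z)) * h z := by
    intro i k l
    have a1 := (dMR _ _ (sR k l) T.sh z hz (vx i)).2.2
    have a2 : dM (vx i) (SZ Γ h k l) z = dM (vx i) (RZ Γ k l) z * h z
      + RZ Γ k l z * dM (vx i) h z := a1
    rw [a2]
    exact nab _ _ _ _ _ (hdh i)
  have hdC : ∀ i j, dM (vx i) (fun z => dM vt (Γ j) z * h z) z
      + (Γ i z * (dM vt (Γ j) z * h z) + (dM vt (Γ j) z * h z) * (Γ i z)ᵀ) =
      (dM (vx i) (dM vt (Γ j)) z + (Γ i z * dM vt (Γ j) z - dM vt (Γ j) z * Γ i z)) * h z := by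
    intro i j
    have a1 := (dMR _ _ (sΓt j) T.sh z hz (vx i)).2.2
    rw [a1]
    exact nab _ _ _ _ _ (hdh i)
  -- the pointwise identity for one term
  have pf_neg : ∀ u S S', Pf (-u) S S' = - Pf u S S' := by
    intro u S S'
    have := pf_smulu (-1) u S S'
    rw [neg_one_smul] at this
    rw [this]
    ring
  have pf_adds' : ∀ u S T T', Pf u S (T + T') = Pf u S T + Pf u S T' := by
    intro u S T T'
    rw [pf_comm u (T + T') S, pf_adds, pf_comm u T S, pf_comm u T' S]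
  have term : ∀ (i : Fin 5) (C S dC dS : M5),
      (Γ i z).trace * Pf X C S + (Pf (Pi.single i 1) C S + Pf X dC S + Pf X C dS) =
        Pf X (dC + (Γ i z * C + C * (Γ i z)ᵀ)) S + Pf X C (dS + (Γ i z * S + S * (Γ i z)ᵀ)) := by
    intro i C S dC dS
    have a1 := (epi (Γ i z) X).2 C S
    rw [T.rad z hz i, pf_neg] at a1
    rw [pf_adds, pf_adds', ← a1]
    ring
  -- derivative of the field
  have hB : ∀ i, dr (vx i) (BZ Γ h w i) z = w z * ∑ j, ∑ k, ∑ l, eps X i j k l *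
      (Pf X ((dM (vx i) (dM vt (Γ j)) z + (Γ i z * dM vt (Γ j) z - dM vt (Γ j) z * Γ i z)) * h z)
          (SZ Γ h k l z)
        + Pf X (dM vt (Γ j) z * h z)
          ((dM (vx i) (RZ Γ k l) z + (Γ i z * RZ Γ k l z - RZ Γ k l z * Γ i z)) * h z)) := by
    intro i
    have p1 : ∀ j k l, ContDiffOn ℝ ∞ (fun z : Z => eps (cf z.2) i j k l *
        Pf (cf z.2) (dM vt (Γ j) z * h z) (SZ Γ h k l z)) UZ := fun j k l =>
      (eSm i j k l).mul (pfR _ _ (sC j) (sS k l)).1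
    have p2 : ∀ j k, ContDiffOn ℝ ∞ (fun z : Z => ∑ l, eps (cf z.2) i j k l *
        Pf (cf z.2) (dM vt (Γ j) z * h z) (SZ Γ h k l z)) UZ := fun j k =>
      ContDiffOn.sum fun l _ => p1 j k l
    have p3 : ∀ j, ContDiffOn ℝ ∞ (fun z : Z => ∑ k, ∑ l, eps (cf z.2) i j k l *
        Pf (cf z.2) (dM vt (Γ j) z * h z) (SZ Γ h k l z)) UZ := fun j =>
      ContDiffOn.sum fun k _ => p2 j k
    have p4 : ContDiffOn ℝ ∞ (fun z : Z => ∑ j, ∑ k, ∑ l, eps (cf z.2) i j k l *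
        Pf (cf z.2) (dM vt (Γ j) z * h z) (SZ Γ h k l z)) UZ :=
      ContDiffOn.sum fun j _ => p3 j
    have q1 : ∀ j k l, dr (vx i) (fun z : Z => eps (cf z.2) i j k l *
        Pf (cf z.2) (dM vt (Γ j) z * h z) (SZ Γ h k l z)) z = eps X i j k l *
        (Pf (Pi.single i 1) (dM vt (Γ j) z * h z) (SZ Γ h k l z)
          + Pf X (dM (vx i) (fun z => dM vt (Γ j) z * h z) z) (SZ Γ h k l z)
          + Pf X (dM vt (Γ j) z * h z) (dM (vx i) (SZ Γ h k l) z)) := by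
      intro j k l
      rw [drMul _ _ (eSm i j k l) (pfR _ _ (sC j) (sS k l)).1 z hz, eD i j k l z hz,
        (pfR _ _ (sC j) (sS k l)).2 z hz, cf_vx, e_self, zero_mul, zero_add]
    have q2 : dr (vx i) (BZ Γ h w i) z = dr (vx i) w z * (∑ j, ∑ k, ∑ l, eps X i j k l *
        Pf X (dM vt (Γ j) z * h z) (SZ Γ h k l z)) + w z * dr (vx i) (fun z : Z =>
        ∑ j, ∑ k, ∑ l, eps (cf z.2) i j k l *
        Pf (cf z.2) (dM vt (Γ j) z * h z) (SZ Γ h k l z)) z := drMul _ _ T.sw p4 z hz _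
    rw [q2, drSum _ p3 z hz]
    simp only [drSum _ (p2 _) z hz, drSum _ (p1 _ _) z hz, q1, dw_eq T hz i]
    rw [mul_assoc, ← mul_add]
    congr 1
    rw [Finset.mul_sum, ← Finset.sum_add_distrib]
    refine Finset.sum_congr rfl fun j _ => ?_
    rw [Finset.mul_sum, ← Finset.sum_add_distrib]
    refine Finset.sum_congr rfl fun k _ => ?_
    rw [Finset.mul_sum, ← Finset.sum_add_distrib]
    refine Finset.sum_congr rfl fun l _ => ?_
    rw [← hdS i k l, ← hdC i j, ← term]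
    ring
  -- the two full contractions
  have hsum : ∑ i, dr (vx i) (BZ Γ h w i) z = w z * (ctr X (fun i j k l =>
      Pf X ((dM (vx i) (dM vt (Γ j)) z + (Γ i z * dM vt (Γ j) z - dM vt (Γ j) z * Γ i z)) * h z)
          (SZ Γ h k l z)) + ctr X (fun i j k l => Pf X (dM vt (Γ j) z * h z)
          ((dM (vx i) (RZ Γ k l) z + (Γ i z * RZ Γ k l z - RZ Γ k l z * Γ i z)) * h z))) := by
    rw [← ctr_add, ctr, Finset.mul_sum]
    exact Finset.sum_congr rfl fun i _ => hB i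
  -- the second one vanishes by the Bianchi identity
  have hbi : ctr X (fun i j k l => Pf X (dM vt (Γ j) z * h z)
      ((dM (vx i) (RZ Γ k l) z + (Γ i z * RZ Γ k l z - RZ Γ k l z * Γ i z)) * h z)) = 0 := by
    refine ctr_cyc X _ fun i j k l => ?_
    have b1 := bianchi i k l (fun i j => dM (vx i) (Γ j) z)
      (fun i k l => dM (vx i) (dM (vx k) (Γ l)) z)
      (fun i k l => dMC _ (T.sΓ l) z hz _ _) (fun i => Γ i z) (fun i j => RZ Γ i j z)
      (fun i j => rfl) (fun i k l => dM (vx i) (RZ Γ k l) z) (fun i k l => hdR (vx i) k l)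
    have pf0 : Pf X (dM vt (Γ j) z * h z) 0 = 0 := by
      rw [pf_comm]
      have := pf_smuls 0 X 0 (dM vt (Γ j) z * h z)
      rw [zero_smul, zero_mul] at this
      rw [pf_comm X _ _] at this
      rw [pf_comm X _ _]
      exact this
    rw [← pf_adds', ← pf_adds', ← add_mul, ← add_mul, b1, zero_mul, pf0]
  -- antisymmetrisation of the first one
  have han : ctr X (fun i j k l =>
      Pf X (dM vt (RZ Γ i j) z * h z) (SZ Γ h k l z)) = 2 * ctr X (fun i j k l =>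
      Pf X ((dM (vx i) (dM vt (Γ j)) z + (Γ i z * dM vt (Γ j) z - dM vt (Γ j) z * Γ i z)) * h z)
          (SZ Γ h k l z)) := by
    set TT : Fin 5 → Fin 5 → Fin 5 → Fin 5 → ℝ := fun i j k l =>
      Pf X ((dM (vx i) (dM vt (Γ j)) z + (Γ i z * dM vt (Γ j) z - dM vt (Γ j) z * Γ i z)) * h z)
          (SZ Γ h k l z) with hTT
    have c1 : ctr X (fun i j k l => TT i j k l + (-1) * TT j i k l) = 2 * ctr X TT := by
      rw [ctr_add X TT (fun i j k l => (-1) * TT j i k l),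
        ctr_smul (-1) X (fun i j k l => TT j i k l), ctr_swap X TT]
      ring
    rw [← c1]
    congr 1
    funext i j k l
    have c2 : dM vt (RZ Γ i j) z * h z =
        (dM (vx i) (dM vt (Γ j)) z + (Γ i z * dM vt (Γ j) z - dM vt (Γ j) z * Γ i z)) * h z
        + (-1 : ℝ) • ((dM (vx j) (dM vt (Γ i)) z
          + (Γ j z * dM vt (Γ i) z - dM vt (Γ i) z * Γ j z)) * h z) := by
      rw [hdR, dMC _ (T.sΓ j) z hz vt (vx i), dMC _ (T.sΓ i) z hz vt (vx j), neg_one_smul]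
      noncomm_ring
    rw [c2, pf_adds, pf_smuls]
  rw [hsum, hbi, add_zero]
  have hQ : QZ Γ h w z = w z * ctr X (fun i j k l =>
      Pf X (dM vt (RZ Γ i j) z * h z) (SZ Γ h k l z)) := rfl
  rw [hQ, han]
  ring

end Pool.Agent.GBS.H49
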