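import Pool.Agent.Helper49_GBS.TRD

/-!
# GBS row TRT: the time derivative of the Euler density (helper49, MP_33f2b9_gt)
-/

noncomputable section

open scoped ContDiff Topology RealInnerProductSpace
open Set MeasureTheory Matrix

namespace Pool.Agent.GBS.H49

open Pool.Agent.RF Pool.Agent.MVS

theorem cf_vt : cf vt.2 = 0 := by
  funext j
  simp [cf, vt]

/-- the derivative of the inverse matrix in any direction -/
theorem dM_inv' (ho : IsOpen UZ)
    (hmul : ∀ F G : Z → M5, SmM F → SmM G → ∀ z ∈ UZ, ∀ v,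
      dM v (fun z => F z * G z) z = dM v F z * G z + F z * dM v G z)
    {g h : Z → M5} {Γ : Fin 5 → Z → M5} {w : Z → ℝ} (T : TData g h Γ w) {z : Z} (hz : z ∈ UZ)
    (v : Z) : dM v h z = - (h z * dM v g z * h z) := by
  have h1 : dM v (fun z => g z * h z) z = 0 := by
    rw [dM_congr ho (G := fun _ => 1) T.inv hz, dM_const]
  rw [hmul g h T.sg T.sh z hz] at h1
  have hgh := T.inv z hz
  have hhg : h z * g z = 1 := mul_eq_one_comm.mp hgh
  have h2 : h z * (dM v g z * h z + g z * dM v h z) = 0 := by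
    rw [h1, mul_zero]
  have h3 : h z * (dM v g z * h z + g z * dM v h z) =
      h z * dM v g z * h z + (h z * g z) * dM v h z := by
    noncomm_ring
  rw [h3, hhg, one_mul] at h2
  rw [eq_neg_iff_add_eq_zero, add_comm]
  exact h2

theorem dM_tr {F : Z → M5} (z v : Z) : dM v (fun z => (F z)ᵀ) z = (dM v F z)ᵀ := by
  ext a b
  rfl

/-- the main row -/
theorem trt (epi : EpiStatement) (eS : EpsStatement) (cal : CalStatement) : TrtStatement := by
  intro g h Γ w T z hz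
  obtain ⟨ho, drS, dMS, ops, drC, dMC, dMR, drMul, drSum, eSm, eD, pfR, -⟩ := cal
  obtain ⟨-, -, -, -, -, -, -, pf_addu, pf_smulu, pf_adds, pf_smuls, pf_comm, pf_tr, ctr_add,
    ctr_smul, -, -, ctr_ex⟩ := eS
  -- smoothness
  have sΓx : ∀ i j, SmM (dM (vx i) (Γ j)) := fun i j => dMS _ (T.sΓ j) _
  have sPr : ∀ i j, SmM (fun z => Γ i z * Γ j z) := fun i j => (ops _ _ (T.sΓ i) (T.sΓ j)).2.2.1
  have sPP : ∀ i j, SmM (fun z => Γ i z * Γ j z - Γ j z * Γ i z) := fun i j =>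
    (ops _ _ (sPr i j) (sPr j i)).2.1
  have sDD : ∀ i j, SmM (fun z => dM (vx i) (Γ j) z - dM (vx j) (Γ i) z) := fun i j =>
    (ops _ _ (sΓx i j) (sΓx j i)).2.1
  have sR : ∀ i j, SmM (RZ Γ i j) := fun i j => (ops _ _ (sDD i j) (sPP i j)).1
  have sS : ∀ i j, SmM (SZ Γ h i j) := fun i j => (ops _ _ (sR i j) T.sh).2.2.1
  -- elementary facts on `Pf`
  set X : Fin 5 → ℝ := cf z.2 with hX
  have pf_zero : ∀ S S', Pf 0 S S' = 0 := by
    intro S S'
    have := pf_smulu 0 0 S S'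
    rw [zero_smul, zero_mul] at this
    exact this
  have pf_adds' : ∀ u S T T', Pf u S (T + T') = Pf u S T + Pf u S T' := by
    intro u S T T'
    rw [pf_comm u (T + T') S, pf_adds, pf_comm u T S, pf_comm u T' S]
  have pf_negs : ∀ u S T, Pf u (-S) T = - Pf u S T := by
    intro u S T
    have := pf_smuls (-1) u S T
    rw [neg_one_smul] at this
    rw [this]
    ring
  have pf_negs' : ∀ u S T, Pf u S (-T) = - Pf u S T := by
    intro u S T
    rw [pf_comm u (-T) S, pf_negs, pf_comm]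
  -- symmetric matrices
  have hgh := T.inv z hz
  have hhg : h z * g z = 1 := mul_eq_one_comm.mp hgh
  have hsh : (h z)ᵀ = h z := by
    have h1 : (h z)ᵀ * g z = 1 := by
      have := congrArg Matrix.transpose hgh
      rw [Matrix.transpose_mul, T.sym z hz, Matrix.transpose_one] at this
      exact this
    calc (h z)ᵀ = (h z)ᵀ * (g z * h z) := by rw [hgh, mul_one]
      _ = ((h z)ᵀ * g z) * h z := by rw [mul_assoc]
      _ = h z := by rw [h1, one_mul]
  have hsg : (dM vt g z)ᵀ = dM vt g z := by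
    rw [← dM_tr, dM_congr ho (G := g) T.sym hz]
  -- the key cancellation
  have key : ∀ S S' : M5, Sᵀ = -S → S'ᵀ = -S' →
      Pf X (S * (dM vt g z * h z)) S' + Pf X S (S' * (dM vt g z * h z)) =
        (h z * dM vt g z).trace / 2 * Pf X S S' := by
    intro S S' hS hS'
    set M : M5 := (1 / 2 : ℝ) • (h z * dM vt g z) with hM
    have hMX : M *ᵥ X = 0 := by
      rw [hM, Matrix.smul_mulVec, ← Matrix.mulVec_mulVec, T.tim z hz, Matrix.mulVec_zero,
        smul_zero]
    have hMT : Mᵀ = (1 / 2 : ℝ) • (dM vt g z * h z) := by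
      rw [hM, Matrix.transpose_smul, Matrix.transpose_mul, hsh, hsg]
    have e1 := (epi M X).2 S S'
    rw [hMX, pf_zero, zero_add, pf_adds, pf_adds'] at e1
    have e2 : Pf X (M * S) S' = Pf X (S * Mᵀ) S' := by
      have : M * S = - (S * Mᵀ)ᵀ := by
        rw [Matrix.transpose_mul, Matrix.transpose_transpose, hS, mul_neg, neg_neg]
      rw [this, pf_negs, pf_tr, neg_neg]
    have e3 : Pf X S (M * S') = Pf X S (S' * Mᵀ) := by
      have : M * S' = - (S' * Mᵀ)ᵀ := by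
        rw [Matrix.transpose_mul, Matrix.transpose_transpose, hS', mul_neg, neg_neg]
      rw [this, pf_negs', pf_comm X _ S, pf_tr, neg_neg, pf_comm]
    rw [e2, e3, hMT, Matrix.mul_smul, Matrix.mul_smul, pf_smuls, pf_comm X _ S, pf_smuls,
      pf_comm X S _, hM, Matrix.trace_smul, smul_eq_mul] at e1
    linarith
  -- derivative of `S`
  have hdS : ∀ i j, dM vt (SZ Γ h i j) z =
      dM vt (RZ Γ i j) z * h z + (-1 : ℝ) • (SZ Γ h i j z * (dM vt g z * h z)) := by
    intro i j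
    have a1 := (dMR _ _ (sR i j) T.sh z hz vt).2.2
    have a2 : dM vt (SZ Γ h i j) z = dM vt (RZ Γ i j) z * h z
      + RZ Γ i j z * dM vt h z := a1
    rw [a2, dM_inv' ho (fun F G hF hG z hz v => (dMR F G hF hG z hz v).2.2) T hz, neg_one_smul]
    have a3 : SZ Γ h i j z = RZ Γ i j z * h z := rfl
    rw [a3]
    noncomm_ring
  -- one term
  have term : ∀ i j k l, (h z * dM vt g z).trace / 2 * Pf X (SZ Γ h i j z) (SZ Γ h k l z)
      + (Pf X (dM vt (SZ Γ h i j) z) (SZ Γ h k l z) + Pf X (SZ Γ h i j z) (dM vt (SZ Γ h k l) z)) =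
      Pf X (dM vt (RZ Γ i j) z * h z) (SZ Γ h k l z)
        + Pf X (dM vt (RZ Γ k l) z * h z) (SZ Γ h i j z) := by
    intro i j k l
    have k1 := key (SZ Γ h i j z) (SZ Γ h k l z) (T.skew z hz i j) (T.skew z hz k l)
    have k2 : ∀ S A : M5, Pf X S ((-1 : ℝ) • A) = - Pf X S A := by
      intro S A
      rw [neg_one_smul, pf_negs']
    rw [hdS i j, hdS k l, pf_adds, pf_adds', pf_smuls, k2, ← k1,
      pf_comm X (dM vt (RZ Γ k l) z * h z) (SZ Γ h i j z)]
    ring
  -- derivative of `EZ`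
  have p1 : ∀ i j k l, ContDiffOn ℝ ∞ (fun z : Z => eps (cf z.2) i j k l *
      Pf (cf z.2) (SZ Γ h i j z) (SZ Γ h k l z)) UZ := fun i j k l =>
    (eSm i j k l).mul (pfR _ _ (sS i j) (sS k l)).1
  have p2 : ∀ i j k, ContDiffOn ℝ ∞ (fun z : Z => ∑ l, eps (cf z.2) i j k l *
      Pf (cf z.2) (SZ Γ h i j z) (SZ Γ h k l z)) UZ := fun i j k =>
    ContDiffOn.sum fun l _ => p1 i j k l
  have p3 : ∀ i j, ContDiffOn ℝ ∞ (fun z : Z => ∑ k, ∑ l, eps (cf z.2) i j k l *
      Pf (cf z.2) (SZ Γ h i j z) (SZ Γ h k l z)) UZ := fun i j =>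
    ContDiffOn.sum fun k _ => p2 i j k
  have p4 : ∀ i, ContDiffOn ℝ ∞ (fun z : Z => ∑ j, ∑ k, ∑ l, eps (cf z.2) i j k l *
      Pf (cf z.2) (SZ Γ h i j z) (SZ Γ h k l z)) UZ := fun i =>
    ContDiffOn.sum fun j _ => p3 i j
  have p5 : ContDiffOn ℝ ∞ (fun z : Z => ∑ i, ∑ j, ∑ k, ∑ l, eps (cf z.2) i j k l *
      Pf (cf z.2) (SZ Γ h i j z) (SZ Γ h k l z)) UZ :=
    ContDiffOn.sum fun i _ => p4 i
  have q1 : ∀ i j k l, dr vt (fun z : Z => eps (cf z.2) i j k l *
      Pf (cf z.2) (SZ Γ h i j z) (SZ Γ h k l z)) z = eps X i j k l *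
      (Pf X (dM vt (SZ Γ h i j) z) (SZ Γ h k l z)
        + Pf X (SZ Γ h i j z) (dM vt (SZ Γ h k l) z)) := by
    intro i j k l
    have e0 : eps 0 i j k l = 0 := by
      have := eD i j k l z hz vt
      rw [cf_vt] at this
      rw [← this]
      have h2 : ∀ c : ℝ, eps (c • (0 : Fin 5 → ℝ)) i j k l = eps 0 i j k l := by
        intro c
        rw [smul_zero]
      have h3 : (Matrix.of ![(0 : Fin 5 → ℝ), Pi.single i 1, Pi.single j 1, Pi.single k 1,
          Pi.single l 1]).det = 0 := Matrix.det_eq_zero_of_row_eq_zero 0 fun _ => rfl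
      rw [this]
      exact h3
    rw [drMul _ _ (eSm i j k l) (pfR _ _ (sS i j) (sS k l)).1 z hz, eD i j k l z hz,
      (pfR _ _ (sS i j) (sS k l)).2 z hz, cf_vt, e0, zero_mul, zero_add, pf_zero, zero_add]
  have q2 : dr vt (EZ Γ h w) z = dr vt w z * (∑ i, ∑ j, ∑ k, ∑ l, eps X i j k l *
      Pf X (SZ Γ h i j z) (SZ Γ h k l z)) + w z * dr vt (fun z : Z =>
      ∑ i, ∑ j, ∑ k, ∑ l, eps (cf z.2) i j k l *
      Pf (cf z.2) (SZ Γ h i j z) (SZ Γ h k l z)) z := drMul _ _ T.sw p5 z hz _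
  have q3 : dr vt (EZ Γ h w) z = w z * (ctr X (fun i j k l =>
      Pf X (dM vt (RZ Γ i j) z * h z) (SZ Γ h k l z)) + ctr X (fun i j k l =>
        Pf X (dM vt (RZ Γ k l) z * h z) (SZ Γ h i j z))) := by
    rw [q2, drSum _ p4 z hz]
    simp only [drSum _ (p3 _) z hz, drSum _ (p2 _ _) z hz, drSum _ (p1 _ _ _) z hz, q1]
    rw [T.dw z hz vt, ← ctr_add, ctr, div_mul_eq_mul_div, mul_div_assoc, mul_assoc, ← mul_add]
    congr 1
    rw [Finset.mul_sum, ← Finset.sum_add_distrib]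
    refine Finset.sum_congr rfl fun i _ => ?_
    rw [Finset.mul_sum, ← Finset.sum_add_distrib]
    refine Finset.sum_congr rfl fun j _ => ?_
    rw [Finset.mul_sum, ← Finset.sum_add_distrib]
    refine Finset.sum_congr rfl fun k _ => ?_
    rw [Finset.mul_sum, ← Finset.sum_add_distrib]
    refine Finset.sum_congr rfl fun l _ => ?_
    rw [← term]
    ring
  have hex := ctr_ex X (fun i j k l => Pf X (dM vt (RZ Γ i j) z * h z) (SZ Γ h k l z))
  rw [q3]
  have hQ : QZ Γ h w z = w z * ctr X (fun i j k l =>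
      Pf X (dM vt (RZ Γ i j) z * h z) (SZ Γ h k l z)) := rfl
  rw [hQ]
  rw [hex]
  ring

end Pool.Agent.GBS.H49
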